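import Mathlib

namespace Pool.Agent.Results.MP_472e54_mp.ChiralPair

open Matrix
open scoped ComplexOrder

/-- Index set of the standard product basis of `ℂ^{d 0} ⊗ ⋯ ⊗ ℂ^{d (n-1)}`. -/
abbrev Idx {n : ℕ} (d : Fin n → ℕ) : Type := (i : Fin n) → Fin (d i)

/-- Operators on `H = ℂ^{d 0} ⊗ ⋯ ⊗ ℂ^{d (n-1)}`, as matrices in the standard product basis. -/
abbrev Op {n : ℕ} (d : Fin n → ℕ) : Type := Matrix (Idx d) (Idx d) ℂ

/-- The tensor (Kronecker) product `A 0 ⊗ ⋯ ⊗ A (n-1)` of one operator per party. -/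
def tensor {n : ℕ} {d : Fin n → ℕ} (A : (i : Fin n) → Matrix (Fin (d i)) (Fin (d i)) ℂ) : Op d :=
  fun x y => ∏ i, A i (x i) (y i)

/-- A state: a positive semidefinite operator of trace one. -/
def IsState {ι : Type} [Fintype ι] (ρ : Matrix ι ι ℂ) : Prop := ρ.PosSemidef ∧ ρ.trace = 1

/-- The set of separable states: the convex hull of the product states. -/
def Sep {n : ℕ} (d : Fin n → ℕ) : Set (Op d) :=
  convexHull ℝ {σ | ∃ A : (i : Fin n) → Matrix (Fin (d i)) (Fin (d i)) ℂ,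
    (∀ i, IsState (A i)) ∧ σ = tensor A}

/-- `W` is an entanglement witness: Hermitian, `Tr[Wσ] ≥ 0` for all separable `σ`, and
`Tr[Wρ] < 0` for some state `ρ`. (These traces are real; we write their real parts.) -/
def IsEW {n : ℕ} {d : Fin n → ℕ} (W : Op d) : Prop :=
  W.IsHermitian ∧ (∀ σ ∈ Sep d, 0 ≤ (W * σ).trace.re) ∧
    ∃ ρ : Op d, IsState ρ ∧ (W * ρ).trace.re < 0

/-- `W` is an optimal entanglement witness: there are no `ε > 0` and nonzero positive
semidefinite `P` such that `W - ε P` is again an entanglement witness. -/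
def IsOptimalEW {n : ℕ} {d : Fin n → ℕ} (W : Op d) : Prop :=
  IsEW W ∧ ¬ ∃ (ε : ℝ) (P : Op d), 0 < ε ∧ P.PosSemidef ∧ P ≠ 0 ∧ IsEW (W - (ε : ℂ) • P)

/-- Two entanglement witnesses form a mirrored pair if their sum is a real multiple of the
identity. -/
def IsMirroredPair {n : ℕ} {d : Fin n → ℕ} (W M : Op d) : Prop :=
  IsEW W ∧ IsEW M ∧ ∃ u : ℝ, W + M = (u : ℂ) • (1 : Op d)

/-- `W` and `M` are related by local unitaries: `M = L W L†` with `L = U 0 ⊗ ⋯ ⊗ U (n-1)`,
every `U i` unitary. -/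
def LocalUnitaryRelated {n : ℕ} {d : Fin n → ℕ} (W M : Op d) : Prop :=
  ∃ U : (i : Fin n) → Matrix (Fin (d i)) (Fin (d i)) ℂ,
    (∀ i, U i ∈ Matrix.unitaryGroup (Fin (d i)) ℂ) ∧ M = tensor U * W * (tensor U)ᴴ

/-! ### General facts on tensor products of operators -/

section general

variable {n : ℕ} {d : Fin n → ℕ}

theorem tensor_mul (A B : (i : Fin n) → Matrix (Fin (d i)) (Fin (d i)) ℂ) :
    tensor A * tensor B = tensor (fun i => A i * B i) := by
  ext x y
  simp only [Matrix.mul_apply, tensor, ← Finset.prod_mul_distrib]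
  rw [Finset.prod_univ_sum]
  simp

theorem trace_tensor (A : (i : Fin n) → Matrix (Fin (d i)) (Fin (d i)) ℂ) :
    (tensor A).trace = ∏ i, (A i).trace := by
  simp only [Matrix.trace, Matrix.diag, tensor]
  rw [Finset.prod_univ_sum]
  simp

theorem tensor_one : tensor (fun i => (1 : Matrix (Fin (d i)) (Fin (d i)) ℂ)) = 1 := by
  ext x y
  simp only [tensor]
  by_cases h : x = y
  · subst h; simp
  · rw [Matrix.one_apply_ne h]
    obtain ⟨i, hi⟩ := Function.ne_iff.mp h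
    exact Finset.prod_eq_zero (Finset.mem_univ i) (Matrix.one_apply_ne hi)

theorem tensor_conjTranspose (A : (i : Fin n) → Matrix (Fin (d i)) (Fin (d i)) ℂ) :
    (tensor A)ᴴ = tensor (fun i => (A i)ᴴ) := by
  ext x y
  simp [tensor, Matrix.conjTranspose_apply]

theorem sep_nonneg {W : Op d}
    (h : ∀ A : (i : Fin n) → Matrix (Fin (d i)) (Fin (d i)) ℂ, (∀ i, IsState (A i)) →
      0 ≤ (W * tensor A).trace.re) :
    ∀ σ ∈ Sep d, 0 ≤ (W * σ).trace.re := by
  intro σ hσ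
  have hc : Convex ℝ {σ : Op d | 0 ≤ (W * σ).trace.re} := by
    intro x hx y hy a b ha hb hab
    simp only [Set.mem_ofPred_eq] at hx hy ⊢
    rw [Matrix.mul_add, Matrix.mul_smul, Matrix.mul_smul, Matrix.trace_add, Matrix.trace_smul,
      Matrix.trace_smul, Complex.add_re, Complex.smul_re, Complex.smul_re, smul_eq_mul, smul_eq_mul]
    positivity
  refine (convexHull_min ?_ hc) hσ
  rintro _ ⟨A, hA, rfl⟩
  exact h A hA

end general


/-! ### Three qubits and Pauli-like triples -/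

/-- The local dimensions of three qubits. -/
abbrev qubits3 : Fin 3 → ℕ := fun _ => 2

abbrev M2 : Type := Matrix (Fin 2) (Fin 2) ℂ

/-- `A ⊗ B ⊗ C` on three qubits. -/
def t3 (A B C : M2) : Op qubits3 := tensor (d := qubits3) (fun i => (![A, B, C] : Fin 3 → M2) i)

theorem t3_mul (A B C A' B' C' : M2) :
    t3 A B C * t3 A' B' C' = t3 (A * A') (B * B') (C * C') := by
  unfold t3
  rw [tensor_mul]
  congr 1
  funext i
  fin_cases i <;> rfl

theorem trace_t3 (A B C : M2) : (t3 A B C).trace = A.trace * B.trace * C.trace := by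
  unfold t3
  rw [trace_tensor, Fin.prod_univ_three]
  rfl

theorem t3_one : t3 1 1 1 = 1 := by
  rw [← tensor_one (d := qubits3)]
  unfold t3
  congr 1
  funext i
  fin_cases i <;> rfl

theorem t3_conjTranspose (A B C : M2) : (t3 A B C)ᴴ = t3 Aᴴ Bᴴ Cᴴ := by
  unfold t3
  rw [tensor_conjTranspose]
  congr 1
  funext i
  fin_cases i <;> rfl

theorem t3_apply (A B C : M2) (x y : Idx qubits3) :
    t3 A B C x y = A (x 0) (y 0) * B (x 1) (y 1) * C (x 2) (y 2) := by
  unfold t3 tensor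
  rw [Fin.prod_univ_three]
  rfl

theorem t3_neg_neg_neg (A B C : M2) : t3 (-A) (-B) (-C) = - t3 A B C := by
  ext x y
  simp [t3_apply]

theorem eq_t3 (A : (i : Fin 3) → Matrix (Fin (qubits3 i)) (Fin (qubits3 i)) ℂ) :
    tensor A = t3 (A 0) (A 1) (A 2) := by
  unfold t3
  congr 1
  funext i
  fin_cases i <;> rfl

/-- The properties of the Pauli matrices that we use. -/
structure PauliTriple (S : Fin 3 → M2) : Prop where
  herm : ∀ i, (S i)ᴴ = S i
  sq : ∀ i, S i * S i = 1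
  anti : ∀ i j, i ≠ j → S i * S j = -(S j * S i)
  tr : ∀ i, (S i).trace = 0
  tr_mul : ∀ i j, i ≠ j → (S i * S j).trace = 0
  bloch : ∀ A : M2, IsState A →
    (∀ i, (S i * A).trace.im = 0) ∧
    (S 0 * A).trace.re ^ 2 + (S 1 * A).trace.re ^ 2 + (S 2 * A).trace.re ^ 2 ≤ 1
  state : ∀ i, IsState ((1 / 2 : ℂ) • (1 + S i)) ∧ IsState ((1 / 2 : ℂ) • (1 - S i))

/-- The cyclic part `S₀⊗S₁⊗S₂ + S₁⊗S₂⊗S₀ + S₂⊗S₀⊗S₁`. -/
def cyc (S : Fin 3 → M2) : Op qubits3 :=
  t3 (S 0) (S 1) (S 2) + t3 (S 1) (S 2) (S 0) + t3 (S 2) (S 0) (S 1)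

/-- The anticyclic part `S₀⊗S₂⊗S₁ + S₂⊗S₁⊗S₀ + S₁⊗S₀⊗S₂`. -/
def acyc (S : Fin 3 → M2) : Op qubits3 :=
  t3 (S 0) (S 2) (S 1) + t3 (S 2) (S 1) (S 0) + t3 (S 1) (S 0) (S 2)

/-- The chirality operator `Σ ε_{ijk} S_i ⊗ S_j ⊗ S_k`. -/
def chi (S : Fin 3 → M2) : Op qubits3 := cyc S - acyc S

theorem t3_smul (a : ℂ) (A B C : M2) : t3 (a • A) B C = a • t3 A B C := by
  ext x y
  simp [t3_apply]
  ring

theorem cyc_sq {S : Fin 3 → M2} (h : PauliTriple S) : cyc S * cyc S = (3 : ℂ) • 1 := by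
  have e01 := h.anti 0 1 (by decide)
  have e02 := h.anti 0 2 (by decide)
  have e12 := h.anti 1 2 (by decide)
  unfold cyc
  simp only [add_mul, mul_add, t3_mul, h.sq, t3_one]
  rw [e01, e12, e02]
  have h1 : ∀ A B C : M2, t3 (-A) (-B) C + t3 A B (-C) = 0 := by
    intro A B C; ext x y; simp [t3_apply]
  have h2 : ∀ A B C : M2, t3 (-A) B (-C) + t3 A (-B) C = 0 := by
    intro A B C; ext x y; simp [t3_apply]
  have h3 : ∀ A B C : M2, t3 A (-B) (-C) + t3 (-A) B C = 0 := by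
    intro A B C; ext x y; simp [t3_apply]
  have k1 := h1 (S 1 * S 0) (S 2 * S 1) (S 2 * S 0)
  have k3 := h3 (S 2 * S 0) (S 1 * S 0) (S 2 * S 1)
  have k5 := h2 (S 2 * S 1) (S 2 * S 0) (S 1 * S 0)
  linear_combination (norm := module) k1 + k3 + k5

theorem cyc_herm {S : Fin 3 → M2} (h : PauliTriple S) : (cyc S)ᴴ = cyc S := by
  unfold cyc
  simp only [Matrix.conjTranspose_add, t3_conjTranspose, h.herm]

theorem acyc_herm {S : Fin 3 → M2} (h : PauliTriple S) : (acyc S)ᴴ = acyc S := by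
  unfold acyc
  simp only [Matrix.conjTranspose_add, t3_conjTranspose, h.herm]

theorem chi_herm {S : Fin 3 → M2} (h : PauliTriple S) : (chi S)ᴴ = chi S := by
  unfold chi
  rw [Matrix.conjTranspose_sub, cyc_herm h, acyc_herm h]

theorem det_bound (a b c a' b' c' a'' b'' c'' : ℝ) (h1 : a ^ 2 + b ^ 2 + c ^ 2 ≤ 1)
    (h2 : a' ^ 2 + b' ^ 2 + c' ^ 2 ≤ 1) (h3 : a'' ^ 2 + b'' ^ 2 + c'' ^ 2 ≤ 1) :
    a * b' * c'' + b * c' * a'' + c * a' * b''
      - (a * c' * b'' + c * b' * a'' + b * a' * c'') ≤ 1 := by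
  set u := b' * c'' - c' * b'' with hu
  set v := c' * a'' - a' * c'' with hv
  set w := a' * b'' - b' * a'' with hw
  have e : a * b' * c'' + b * c' * a'' + c * a' * b''
      - (a * c' * b'' + c * b' * a'' + b * a' * c'') = a * u + b * v + c * w := by
    rw [hu, hv, hw]; ring
  rw [e]
  have hL : u ^ 2 + v ^ 2 + w ^ 2 ≤ 1 := by
    have : u ^ 2 + v ^ 2 + w ^ 2 = (a' ^ 2 + b' ^ 2 + c' ^ 2) * (a'' ^ 2 + b'' ^ 2 + c'' ^ 2)
        - (a' * a'' + b' * b'' + c' * c'') ^ 2 := by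
      rw [hu, hv, hw]; ring
    rw [this]
    nlinarith [sq_nonneg (a' * a'' + b' * b'' + c' * c''), sq_nonneg a', sq_nonneg b', sq_nonneg c',
      sq_nonneg a'', sq_nonneg b'', sq_nonneg c'']
  nlinarith [sq_nonneg (a - u), sq_nonneg (b - v), sq_nonneg (c - w)]


theorem trace_chi_t3 (S : Fin 3 → M2) (A B C : M2) :
    (chi S * t3 A B C).trace =
      (S 0 * A).trace * (S 1 * B).trace * (S 2 * C).trace
      + (S 1 * A).trace * (S 2 * B).trace * (S 0 * C).trace
      + (S 2 * A).trace * (S 0 * B).trace * (S 1 * C).trace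
      - ((S 0 * A).trace * (S 2 * B).trace * (S 1 * C).trace
      + (S 2 * A).trace * (S 1 * B).trace * (S 0 * C).trace
      + (S 1 * A).trace * (S 0 * B).trace * (S 2 * C).trace) := by
  unfold chi cyc acyc
  simp only [sub_mul, add_mul, t3_mul, Matrix.trace_sub, Matrix.trace_add, trace_t3]

theorem chi_product_le {S : Fin 3 → M2} (h : PauliTriple S) (A B C : M2) (hA : IsState A)
    (hB : IsState B) (hC : IsState C) : (chi S * t3 A B C).trace.re ≤ 1 := by
  obtain ⟨iA, bA⟩ := h.bloch A hA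
  obtain ⟨iB, bB⟩ := h.bloch B hB
  obtain ⟨iC, bC⟩ := h.bloch C hC
  rw [trace_chi_t3]
  simp only [Complex.add_re, Complex.sub_re, Complex.mul_re, Complex.mul_im, iA, iB, iC,
    mul_zero, zero_mul, sub_zero, add_zero]
  exact det_bound _ _ _ _ _ _ _ _ _ bA bB bC

/-- The witness `1 - chi S` is nonnegative on separable states. -/
theorem sep_pos {S : Fin 3 → M2} (h : PauliTriple S) :
    ∀ σ ∈ Sep qubits3, 0 ≤ ((1 - chi S) * σ).trace.re := by
  apply sep_nonneg
  intro A hA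
  rw [eq_t3, sub_mul, one_mul, Matrix.trace_sub, trace_t3, (hA 0).2, (hA 1).2, (hA 2).2]
  have := chi_product_le h (A 0) (A 1) (A 2) (hA 0) (hA 1) (hA 2)
  simp only [Complex.sub_re, mul_one, Complex.one_re]
  linarith

/-- `(1 + S₀⊗S₁⊗S₂)/8` is separable (general form for three commuting-free slots). -/
theorem string_sep {S : Fin 3 → M2} (h : PauliTriple S) (i j k : Fin 3) :
    (1 / 8 : ℂ) • (1 + t3 (S i) (S j) (S k)) ∈ Sep qubits3 := by
  have mem : ∀ A B C : M2, IsState A → IsState B → IsState C → t3 A B C ∈ Sep qubits3 := by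
    intro A B C hA hB hC
    apply subset_convexHull
    refine ⟨fun i => (![A, B, C] : Fin 3 → M2) i, ?_, rfl⟩
    intro i
    fin_cases i
    · exact hA
    · exact hB
    · exact hC
  obtain ⟨pi, mi⟩ := h.state i
  obtain ⟨pj, mj⟩ := h.state j
  obtain ⟨pk, mk⟩ := h.state k
  have c : Convex ℝ (Sep qubits3) := convex_convexHull ℝ _
  have m1 := c (mem _ _ _ pi pj pk) (mem _ _ _ pi mj mk) (a := (1 / 2 : ℝ)) (b := (1 / 2 : ℝ))
    (by norm_num) (by norm_num) (by norm_num)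
  have m2 := c (mem _ _ _ mi pj mk) (mem _ _ _ mi mj pk) (a := (1 / 2 : ℝ)) (b := (1 / 2 : ℝ))
    (by norm_num) (by norm_num) (by norm_num)
  have m3 := c m1 m2 (a := (1 / 2 : ℝ)) (b := (1 / 2 : ℝ)) (by norm_num) (by norm_num) (by norm_num)
  convert m3 using 1
  rw [← t3_one]
  ext x y
  simp only [Matrix.smul_apply, Matrix.add_apply, Matrix.sub_apply, t3_apply, smul_eq_mul,
    Complex.real_smul]
  push_cast
  ring

theorem trace_string_chi {S : Fin 3 → M2} (h : PauliTriple S) :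
    (chi S * t3 (S 0) (S 1) (S 2)).trace = 8 ∧ (chi S * t3 (S 1) (S 2) (S 0)).trace = 8 ∧
    (chi S * t3 (S 2) (S 0) (S 1)).trace = 8 := by
  have t1 : (1 : M2).trace = 2 := by simp
  have a01 := h.tr_mul 0 1 (by decide)
  have a10 := h.tr_mul 1 0 (by decide)
  have a02 := h.tr_mul 0 2 (by decide)
  have a20 := h.tr_mul 2 0 (by decide)
  have a12 := h.tr_mul 1 2 (by decide)
  have a21 := h.tr_mul 2 1 (by decide)
  refine ⟨?_, ?_, ?_⟩ <;>
  · rw [trace_chi_t3]
    simp only [h.sq, a01, a10, a02, a20, a12, a21, t1]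
    norm_num

theorem trace_chi {S : Fin 3 → M2} (h : PauliTriple S) : (chi S).trace = 0 := by
  unfold chi cyc acyc
  simp [Matrix.trace_sub, Matrix.trace_add, trace_t3, h.tr]


theorem trace_cyc {S : Fin 3 → M2} (h : PauliTriple S) : (cyc S).trace = 0 := by
  unfold cyc
  simp [Matrix.trace_add, trace_t3, h.tr]

theorem trace_chi_cyc {S : Fin 3 → M2} (h : PauliTriple S) : (chi S * cyc S).trace = 24 := by
  obtain ⟨h1, h2, h3⟩ := trace_string_chi h
  unfold cyc
  rw [mul_add, mul_add, Matrix.trace_add, Matrix.trace_add, h1, h2, h3]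
  norm_num

theorem trace_one_op : (1 : Op qubits3).trace = 8 := by
  rw [← t3_one, trace_t3]
  simp
  norm_num

/-- `2 + cyc S = (1 + cyc S)² / 2`. -/
theorem two_add_cyc {S : Fin 3 → M2} (h : PauliTriple S) :
    (2 : ℂ) • (1 : Op qubits3) + cyc S = (1 / 2 : ℂ) • ((1 + cyc S) * (1 + cyc S)) := by
  have e : (1 + cyc S) * (1 + cyc S) = 1 + cyc S + cyc S + cyc S * cyc S := by
    rw [add_mul, mul_add, mul_add, one_mul, one_mul, mul_one]; abel
  rw [e, cyc_sq h]
  module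

theorem state_cyc {S : Fin 3 → M2} (h : PauliTriple S) :
    IsState ((1 / 16 : ℂ) • ((2 : ℂ) • (1 : Op qubits3) + cyc S)) := by
  constructor
  · rw [two_add_cyc h, smul_smul]
    have hh : (1 + cyc S)ᴴ = 1 + cyc S := by
      rw [Matrix.conjTranspose_add, Matrix.conjTranspose_one, cyc_herm h]
    have hp : ((1 + cyc S) * (1 + cyc S)).PosSemidef := by
      have := Matrix.posSemidef_self_mul_conjTranspose (1 + cyc S)
      rwa [hh] at this
    have h32 : (0 : ℂ) ≤ 1 / 16 * (1 / 2) := by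
      have : (1 / 16 * (1 / 2) : ℂ) = ((1 / 32 : ℝ) : ℂ) := by push_cast; norm_num
      rw [this]
      exact Complex.zero_le_real.mpr (by norm_num)
    exact hp.smul h32
  · rw [Matrix.trace_smul, Matrix.trace_add, Matrix.trace_smul, trace_cyc h, trace_one_op]
    simp only [smul_eq_mul]
    norm_num

theorem isEW {S : Fin 3 → M2} (h : PauliTriple S) : IsEW (1 - chi S) := by
  refine ⟨?_, sep_pos h, _, state_cyc h, ?_⟩
  · rw [Matrix.IsHermitian, Matrix.conjTranspose_sub, Matrix.conjTranspose_one, chi_herm h]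
  · rw [Matrix.mul_smul, Matrix.trace_smul, sub_mul, one_mul, mul_add, Matrix.trace_sub,
      Matrix.trace_add, Matrix.trace_add, Matrix.mul_smul, mul_one, Matrix.trace_smul,
      Matrix.trace_smul, trace_cyc h, trace_one_op, trace_chi h, trace_chi_cyc h]
    simp only [smul_eq_mul]
    norm_num

theorem isOptimalEW {S : Fin 3 → M2} (h : PauliTriple S) : IsOptimalEW (1 - chi S) := by
  refine ⟨isEW h, ?_⟩
  rintro ⟨ε, P, hε, hP, hP0, -, hpos, -⟩
  apply hP0
  obtain ⟨h1, h2, h3⟩ := trace_string_chi h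
  have key : ∀ i j k : Fin 3, (chi S * t3 (S i) (S j) (S k)).trace = 8 →
      (P * (1 + t3 (S i) (S j) (S k))).trace.re ≤ 0 := by
    intro i j k hijk
    have := hpos _ (string_sep h i j k)
    rw [Matrix.mul_smul, Matrix.trace_smul, sub_mul, Matrix.trace_sub, Matrix.smul_mul,
      Matrix.trace_smul] at this
    have e : ((1 - chi S) * (1 + t3 (S i) (S j) (S k))).trace = 0 := by
      rw [sub_mul, one_mul, mul_add, mul_one, Matrix.trace_sub, Matrix.trace_add,
        Matrix.trace_add, hijk, trace_one_op, trace_chi h, trace_t3, h.tr]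
      ring
    rw [e] at this
    simp only [smul_eq_mul, zero_sub, Complex.mul_re, Complex.neg_re, Complex.neg_im,
      Complex.mul_im, Complex.ofReal_re, Complex.ofReal_im, zero_mul, sub_zero, add_zero] at this
    norm_num at this
    have h8 : 0 ≤ -(ε * (P * (1 + t3 (S i) (S j) (S k))).trace.re) := by linarith
    by_contra hc
    push Not at hc
    have := mul_pos hε hc
    linarith
  have k1 := key 0 1 2 h1
  have k2 := key 1 2 0 h2
  have k3 := key 2 0 1 h3
  have hsum : (P * ((3 : ℂ) • 1 + cyc S)).trace.re ≤ 0 := by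
    have e : P * ((3 : ℂ) • 1 + cyc S) = P * (1 + t3 (S 0) (S 1) (S 2))
        + P * (1 + t3 (S 1) (S 2) (S 0)) + P * (1 + t3 (S 2) (S 0) (S 1)) := by
      rw [← mul_add, ← mul_add]
      congr 1
      unfold cyc
      module
    rw [e, Matrix.trace_add, Matrix.trace_add, Complex.add_re, Complex.add_re]
    linarith
  have hnn : 0 ≤ (P * ((2 : ℂ) • 1 + cyc S)).trace.re := by
    rw [two_add_cyc h, Matrix.mul_smul, Matrix.trace_smul]
    have hh : (1 + cyc S)ᴴ = 1 + cyc S := by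
      rw [Matrix.conjTranspose_add, Matrix.conjTranspose_one, cyc_herm h]
    have hp : 0 ≤ ((1 + cyc S) * P * (1 + cyc S)ᴴ).trace :=
      (hP.mul_mul_conjTranspose_same (1 + cyc S)).trace_nonneg
    rw [hh, Matrix.mul_assoc, Matrix.trace_mul_comm, Matrix.mul_assoc] at hp
    have hp' := (Complex.le_def.mp hp).1
    simp only [smul_eq_mul, Complex.mul_re]
    norm_num
    simpa using hp'
  have e2 : P * ((3 : ℂ) • 1 + cyc S) = P + P * ((2 : ℂ) • 1 + cyc S) := by
    have : P = P * 1 := (mul_one P).symm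
    nth_rewrite 2 [this]
    rw [← mul_add]
    congr 1
    module
  rw [e2, Matrix.trace_add, Complex.add_re] at hsum
  have ht := Complex.le_def.mp hP.trace_nonneg
  have htr : P.trace = 0 := by
    apply Complex.ext
    · simp only [Complex.zero_re] at ht ⊢
      linarith [ht.1]
    · simpa using ht.2.symm
  exact hP.trace_eq_zero_iff.mp htr


/-! ### The Pauli matrices -/

def sX : M2 := !![0, 1; 1, 0]
def sY : M2 := !![0, -Complex.I; Complex.I, 0]
def sZ : M2 := !![1, 0; 0, -1]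

theorem state_entries {A : M2} (hA : IsState A) :
    (A 0 0).im = 0 ∧ (A 1 1).im = 0 ∧ A 1 0 = star (A 0 1) ∧ (A 0 0).re + (A 1 1).re = 1 ∧
      (A 0 1).re ^ 2 + (A 0 1).im ^ 2 ≤ (A 0 0).re * (A 1 1).re := by
  obtain ⟨hP, ht⟩ := hA
  have hh := hP.isHermitian
  have h00 := hh.apply 0 0
  have h11 := hh.apply 1 1
  have h10 := hh.apply 1 0
  have i00 : (A 0 0).im = 0 := by
    have := congrArg Complex.im h00
    simp at this
    linarith
  have i11 : (A 1 1).im = 0 := by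
    have := congrArg Complex.im h11
    simp at this
    linarith
  have hdet : 0 ≤ A.det := hP.det_nonneg
  rw [Matrix.det_fin_two, ← h10] at hdet
  have hd := (Complex.le_def.mp hdet).1
  have ht' := congrArg Complex.re ht
  simp [Matrix.trace, Fin.sum_univ_two] at ht'
  refine ⟨i00, i11, h10.symm, ht', ?_⟩
  simp [Complex.mul_re, i00, i11] at hd
  nlinarith [hd]


theorem state_of {T : M2} (hh : Tᴴ = T) (hs : T * T = 1) (ht : T.trace = 0) :
    IsState ((1 / 2 : ℂ) • (1 + T)) ∧ IsState ((1 / 2 : ℂ) • (1 - T)) := by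
  have aux : ∀ R : M2, Rᴴ = R → R * R = 1 → R.trace = 0 → IsState ((1 / 2 : ℂ) • (1 + R)) := by
    intro R hh hs ht
    constructor
    · have e : (1 / 2 : ℂ) • (1 + R) = ((1 / 2 : ℂ) • (1 + R)) * ((1 / 2 : ℂ) • (1 + R))ᴴ := by
        rw [Matrix.conjTranspose_smul, Matrix.conjTranspose_add, Matrix.conjTranspose_one, hh,
          Matrix.smul_mul, Matrix.mul_smul, add_mul, mul_add, mul_add, one_mul, one_mul, mul_one,
          hs]
        have : star (1 / 2 : ℂ) = 1 / 2 := by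
          simp
        rw [this]
        module
      rw [e]
      exact Matrix.posSemidef_self_mul_conjTranspose _
    · rw [Matrix.trace_smul, Matrix.trace_add, ht]
      simp
  refine ⟨aux T hh hs ht, ?_⟩
  have := aux (-T) (by rw [Matrix.conjTranspose_neg, hh]) (by rw [neg_mul_neg, hs])
    (by rw [Matrix.trace_neg, ht, neg_zero])
  rwa [← sub_eq_add_neg] at this

theorem sX_herm : sXᴴ = sX := by
  ext i j; fin_cases i <;> fin_cases j <;> simp [sX, Matrix.conjTranspose_apply]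

theorem sY_herm : sYᴴ = sY := by
  ext i j; fin_cases i <;> fin_cases j <;> simp [sY, Matrix.conjTranspose_apply]

theorem sZ_herm : sZᴴ = sZ := by
  ext i j; fin_cases i <;> fin_cases j <;> simp [sZ, Matrix.conjTranspose_apply]

theorem sX_sq : sX * sX = 1 := by
  ext i j; fin_cases i <;> fin_cases j <;> simp [sX]

theorem sY_sq : sY * sY = 1 := by
  ext i j; fin_cases i <;> fin_cases j <;> simp [sY]

theorem sZ_sq : sZ * sZ = 1 := by
  ext i j; fin_cases i <;> fin_cases j <;> simp [sZ]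

theorem sX_tr : sX.trace = 0 := by simp [sX, Matrix.trace, Fin.sum_univ_two]
theorem sY_tr : sY.trace = 0 := by simp [sY, Matrix.trace, Fin.sum_univ_two]
theorem sZ_tr : sZ.trace = 0 := by simp [sZ, Matrix.trace, Fin.sum_univ_two]

theorem sX_sY : sX * sY = Complex.I • sZ := by
  ext i j; fin_cases i <;> fin_cases j <;> simp [sX, sY, sZ]
theorem sY_sX : sY * sX = -(Complex.I • sZ) := by
  ext i j; fin_cases i <;> fin_cases j <;> simp [sX, sY, sZ]
theorem sX_sZ : sX * sZ = -(Complex.I • sY) := by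
  ext i j; fin_cases i <;> fin_cases j <;> simp [sX, sY, sZ]
theorem sZ_sX : sZ * sX = Complex.I • sY := by
  ext i j; fin_cases i <;> fin_cases j <;> simp [sX, sY, sZ]
theorem sY_sZ : sY * sZ = Complex.I • sX := by
  ext i j; fin_cases i <;> fin_cases j <;> simp [sX, sY, sZ]
theorem sZ_sY : sZ * sY = -(Complex.I • sX) := by
  ext i j; fin_cases i <;> fin_cases j <;> simp [sX, sY, sZ]

theorem pauli_bloch {A : M2} (hA : IsState A) :
    ((sX * A).trace.im = 0 ∧ (sY * A).trace.im = 0 ∧ (sZ * A).trace.im = 0) ∧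
    (sX * A).trace.re ^ 2 + (sY * A).trace.re ^ 2 + (sZ * A).trace.re ^ 2 ≤ 1 := by
  obtain ⟨h00, h11, h10, ht, hd⟩ := state_entries hA
  have eX : (sX * A).trace = A 1 0 + A 0 1 := by
    rw [Matrix.trace_fin_two, Matrix.mul_apply, Matrix.mul_apply, Fin.sum_univ_two,
      Fin.sum_univ_two]
    simp [sX]
  have eY : (sY * A).trace = Complex.I * (A 0 1 - A 1 0) := by
    rw [Matrix.trace_fin_two, Matrix.mul_apply, Matrix.mul_apply, Fin.sum_univ_two,
      Fin.sum_univ_two]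
    simp [sY]
    ring
  have eZ : (sZ * A).trace = A 0 0 - A 1 1 := by
    rw [Matrix.trace_fin_two, Matrix.mul_apply, Matrix.mul_apply, Fin.sum_univ_two,
      Fin.sum_univ_two]
    simp [sZ]
    ring
  rw [eX, eY, eZ, h10]
  refine ⟨⟨?_, ?_, ?_⟩, ?_⟩
  · simp
  · simp
  · simp [h00, h11]
  · simp
    nlinarith [hd, ht]

theorem pauli_xyz : PauliTriple ![sX, sY, sZ] where
  herm i := by fin_cases i; exacts [sX_herm, sY_herm, sZ_herm]
  sq i := by fin_cases i; exacts [sX_sq, sY_sq, sZ_sq]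
  anti i j hij := by
    fin_cases i <;> fin_cases j <;>
      first
        | exact absurd rfl hij
        | simp [sX_sY, sY_sX, sX_sZ, sZ_sX, sY_sZ, sZ_sY]
  tr i := by fin_cases i; exacts [sX_tr, sY_tr, sZ_tr]
  tr_mul i j hij := by
    fin_cases i <;> fin_cases j <;>
      first
        | exact absurd rfl hij
        | simp [sX_sY, sY_sX, sX_sZ, sZ_sX, sY_sZ, sZ_sY, sX_tr, sY_tr, sZ_tr]
  bloch A hA := by
    obtain ⟨⟨h1, h2, h3⟩, h4⟩ := pauli_bloch hA
    refine ⟨?_, h4⟩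
    intro i
    fin_cases i
    exacts [h1, h2, h3]
  state i := by
    fin_cases i
    exacts [state_of sX_herm sX_sq sX_tr, state_of sY_herm sY_sq sY_tr,
      state_of sZ_herm sZ_sq sZ_tr]

theorem pauli_xzy : PauliTriple ![sX, sZ, sY] where
  herm i := by fin_cases i; exacts [sX_herm, sZ_herm, sY_herm]
  sq i := by fin_cases i; exacts [sX_sq, sZ_sq, sY_sq]
  anti i j hij := by
    fin_cases i <;> fin_cases j <;>
      first
        | exact absurd rfl hij
        | simp [sX_sY, sY_sX, sX_sZ, sZ_sX, sY_sZ, sZ_sY]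
  tr i := by fin_cases i; exacts [sX_tr, sZ_tr, sY_tr]
  tr_mul i j hij := by
    fin_cases i <;> fin_cases j <;>
      first
        | exact absurd rfl hij
        | simp [sX_sY, sY_sX, sX_sZ, sZ_sX, sY_sZ, sZ_sY, sX_tr, sY_tr, sZ_tr]
  bloch A hA := by
    obtain ⟨⟨h1, h2, h3⟩, h4⟩ := pauli_bloch hA
    refine ⟨?_, ?_⟩
    · intro i
      fin_cases i
      exacts [h1, h3, h2]
    · simp only [Matrix.cons_val_zero, Matrix.cons_val_one, Matrix.cons_val] at h4 ⊢
      linarith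
  state i := by
    fin_cases i
    exacts [state_of sX_herm sX_sq sX_tr, state_of sZ_herm sZ_sq sZ_tr,
      state_of sY_herm sY_sq sY_tr]

/-- The chirality operator `Σ ε_{abc} σ_a ⊗ σ_b ⊗ σ_c` on three qubits. -/
def chirality : Op qubits3 := chi ![sX, sY, sZ]

theorem chi_xzy : chi ![sX, sZ, sY] = -chirality := by
  unfold chirality chi cyc acyc
  simp only [Matrix.cons_val_zero, Matrix.cons_val_one, Matrix.cons_val]
  abel


/-! ### The chirality operator and its negative are not related by local unitaries -/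

/-- The trilinear form of the chirality operator. -/
theorem trace_chirality (A B C : M2) :
    (chirality * t3 A B C).trace = -(2 * Complex.I) * (A * (B * C - C * B)).trace := by
  unfold chirality
  rw [trace_chi_t3]
  simp only [Matrix.cons_val_zero, Matrix.cons_val_one, Matrix.cons_val]
  have e : ∀ A : M2, (sX * A).trace = A 1 0 + A 0 1 ∧ (sY * A).trace = Complex.I * (A 0 1 - A 1 0)
      ∧ (sZ * A).trace = A 0 0 - A 1 1 := by
    intro A
    refine ⟨?_, ?_, ?_⟩ <;>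
    rw [Matrix.trace_fin_two, Matrix.mul_apply, Matrix.mul_apply, Fin.sum_univ_two,
      Fin.sum_univ_two]
    · simp [sX]
    · simp [sY]
      ring
    · simp [sZ]
      ring
  rw [(e A).1, (e A).2.1, (e A).2.2, (e B).1, (e B).2.1, (e B).2.2, (e C).1, (e C).2.1, (e C).2.2]
  simp only [Matrix.trace_fin_two, Matrix.mul_apply, Matrix.sub_apply, Fin.sum_univ_two]
  ring

/-- There are no maps `φ₁, φ₂, θ` of `M₂(ℂ)` respecting products with
`[φ₁ B, φ₂ C] = -θ [B, C]`. -/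
theorem no_triple (φ₁ φ₂ θ : M2 → M2) (m1 : ∀ A B, φ₁ (A * B) = φ₁ A * φ₁ B)
    (m2 : ∀ A B, φ₂ (A * B) = φ₂ A * φ₂ B) (m3 : ∀ A B, θ (A * B) = θ A * θ B)
    (o3 : θ 1 = 1) (a3 : ∀ A B, θ (A - B) = θ A - θ B)
    (h : ∀ B C, φ₁ B * φ₂ C - φ₂ C * φ₁ B = -θ (B * C - C * B)) : False := by
  have z3 : θ 0 = 0 := by have := a3 0 0; simpa using this
  have n3 : ∀ A, θ (-A) = -θ A := by
    intro A
    have := a3 0 A
    rwa [zero_sub, z3, zero_sub] at this
  have hXX : θ sX * θ sX = 1 := by rw [← m3, sX_sq, o3]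
  have hZZ : θ sZ * θ sZ = 1 := by rw [← m3, sZ_sq, o3]
  have hanti : sZ * sX = -(sX * sZ) := by rw [sZ_sX, sX_sZ, neg_neg]
  have hXZ : θ sZ * θ sX = -(θ sX * θ sZ) := by rw [← m3, hanti, n3, m3]
  -- φ₂ Z = θ Z
  have k2 : φ₂ sZ = θ sZ := by
    have h1 := h sZ sX
    have h2 := h sZ sZ
    have h3 := h sZ (sX * sZ)
    rw [sub_self, z3, neg_zero] at h2
    rw [m2] at h3
    have e : φ₁ sZ * (φ₂ sX * φ₂ sZ) - φ₂ sX * φ₂ sZ * φ₁ sZ
        = (φ₁ sZ * φ₂ sX - φ₂ sX * φ₁ sZ) * φ₂ sZ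
          + φ₂ sX * (φ₁ sZ * φ₂ sZ - φ₂ sZ * φ₁ sZ) := by noncomm_ring
    rw [e, h1, h2, mul_zero, add_zero] at h3
    have e' : sZ * (sX * sZ) - sX * sZ * sZ = (sZ * sX - sX * sZ) * sZ := by noncomm_ring
    rw [e', m3] at h3
    have h4 : θ (sZ * sX - sX * sZ) * (φ₂ sZ - θ sZ) = 0 := by
      have : -θ (sZ * sX - sX * sZ) * φ₂ sZ + θ (sZ * sX - sX * sZ) * θ sZ = 0 := by
        rw [h3]; noncomm_ring
      rw [mul_sub, ← neg_eq_zero, ← this]
      noncomm_ring
    rw [a3, m3, m3, hXZ] at h4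
    have h5 : (θ sZ * θ sX) * ((-(θ sX * θ sZ) - θ sX * θ sZ) * (φ₂ sZ - θ sZ)) = 0 := by
      rw [h4, mul_zero]
    have h6 : (θ sZ * θ sX) * (θ sX * θ sZ) = 1 := by
      rw [mul_assoc, ← mul_assoc (θ sX), hXX, one_mul, hZZ]
    have h7 : (θ sZ * θ sX) * ((-(θ sX * θ sZ) - θ sX * θ sZ) * (φ₂ sZ - θ sZ))
        = (-2 : ℂ) • (((θ sZ * θ sX) * (θ sX * θ sZ)) * (φ₂ sZ - θ sZ)) := by
      rw [neg_smul, two_smul]
      noncomm_ring
    rw [h7, h6, one_mul] at h5
    have := (smul_eq_zero.mp h5).resolve_left (by norm_num)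
    exact sub_eq_zero.mp this
  have k1 : φ₁ sX = θ sX := by
    have h1 := h sZ sX
    have h2 := h sX sX
    have h3 := h (sZ * sX) sX
    rw [sub_self, z3, neg_zero] at h2
    rw [m1] at h3
    have e : φ₁ sZ * φ₁ sX * φ₂ sX - φ₂ sX * (φ₁ sZ * φ₁ sX)
        = (φ₁ sZ * φ₂ sX - φ₂ sX * φ₁ sZ) * φ₁ sX
          + φ₁ sZ * (φ₁ sX * φ₂ sX - φ₂ sX * φ₁ sX) := by noncomm_ring
    rw [e, h1, h2, mul_zero, add_zero] at h3
    have e' : sZ * sX * sX - sX * (sZ * sX) = (sZ * sX - sX * sZ) * sX := by noncomm_ring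
    rw [e', m3] at h3
    have h4 : θ (sZ * sX - sX * sZ) * (φ₁ sX - θ sX) = 0 := by
      have : -θ (sZ * sX - sX * sZ) * φ₁ sX + θ (sZ * sX - sX * sZ) * θ sX = 0 := by
        rw [h3]; noncomm_ring
      rw [mul_sub, ← neg_eq_zero, ← this]
      noncomm_ring
    rw [a3, m3, m3, hXZ] at h4
    have h5 : (θ sZ * θ sX) * ((-(θ sX * θ sZ) - θ sX * θ sZ) * (φ₁ sX - θ sX)) = 0 := by
      rw [h4, mul_zero]
    have h6 : (θ sZ * θ sX) * (θ sX * θ sZ) = 1 := by
      rw [mul_assoc, ← mul_assoc (θ sX), hXX, one_mul, hZZ]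
    have h7 : (θ sZ * θ sX) * ((-(θ sX * θ sZ) - θ sX * θ sZ) * (φ₁ sX - θ sX))
        = (-2 : ℂ) • (((θ sZ * θ sX) * (θ sX * θ sZ)) * (φ₁ sX - θ sX)) := by
      rw [neg_smul, two_smul]
      noncomm_ring
    rw [h7, h6, one_mul] at h5
    have := (smul_eq_zero.mp h5).resolve_left (by norm_num)
    exact sub_eq_zero.mp this
  have hf := h sX sZ
  rw [k1, k2, a3, m3, m3, hXZ] at hf
  have h8 : (4 : ℂ) • (θ sX * θ sZ) = 0 := by
    have : (4 : ℂ) • (θ sX * θ sZ) = (θ sX * θ sZ - -(θ sX * θ sZ))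
        - -(θ sX * θ sZ - -(θ sX * θ sZ)) := by module
    rw [this, sub_eq_zero]
    exact hf
  have h9 := (smul_eq_zero.mp h8).resolve_left (by norm_num)
  have h10 : (1 : M2) = 0 := by
    calc (1 : M2) = θ sX * (θ sX * θ sZ) * θ sZ := by
            rw [← mul_assoc, hXX, one_mul, hZZ]
      _ = 0 := by rw [h9, mul_zero, zero_mul]
  exact one_ne_zero h10

theorem not_related : ¬ LocalUnitaryRelated (1 - chirality) (1 + chirality) := by
  rintro ⟨U, hU, hM⟩
  rw [eq_t3, t3_conjTranspose] at hM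
  have hu : ∀ i, (U i)ᴴ * U i = 1 ∧ U i * (U i)ᴴ = 1 := fun i =>
    ⟨Matrix.mem_unitaryGroup_iff'.mp (hU i), Matrix.mem_unitaryGroup_iff.mp (hU i)⟩
  obtain ⟨a0, b0⟩ := hu 0
  obtain ⟨a1, b1⟩ := hu 1
  obtain ⟨a2, b2⟩ := hu 2
  set L := t3 (U 0) (U 1) (U 2) with hL
  set L' := t3 (U 0)ᴴ (U 1)ᴴ (U 2)ᴴ with hL'
  have hLL : L * L' = 1 := by
    rw [hL, hL', t3_mul, b0, b1, b2, t3_one]
  have hO : chirality = -(L * chirality * L') := by
    have : L * (1 - chirality) * L' = 1 - L * chirality * L' := by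
      rw [mul_sub, mul_one, sub_mul, hLL]
    rw [this, sub_eq_add_neg] at hM
    exact add_left_cancel hM
  have key : ∀ A B C : M2, (A * (B * C - C * B)).trace
      = -(((U 0)ᴴ * A * U 0) * (((U 1)ᴴ * B * U 1) * ((U 2)ᴴ * C * U 2)
          - ((U 2)ᴴ * C * U 2) * ((U 1)ᴴ * B * U 1))).trace := by
    intro A B C
    have h1 : (chirality * t3 A B C).trace = -(chirality * (L' * t3 A B C * L)).trace := by
      conv_lhs => rw [hO]
      rw [neg_mul, Matrix.trace_neg, Matrix.mul_assoc, Matrix.mul_assoc, Matrix.trace_mul_comm,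
        Matrix.mul_assoc]
    rw [hL, hL', t3_mul, t3_mul, trace_chirality, trace_chirality] at h1
    have hI : -(2 * Complex.I) ≠ 0 := by
      simp
    apply mul_left_cancel₀ hI
    rw [h1]
    ring
  have key2 : ∀ B C : M2, U 1 * B * (U 1)ᴴ * (U 2 * C * (U 2)ᴴ)
      - U 2 * C * (U 2)ᴴ * (U 1 * B * (U 1)ᴴ) = -(U 0 * (B * C - C * B) * (U 0)ᴴ) := by
    intro B C
    rw [Matrix.ext_iff_trace_mul_left]
    intro A
    rw [key A (U 1 * B * (U 1)ᴴ) (U 2 * C * (U 2)ᴴ)]
    have c1 : (U 1)ᴴ * (U 1 * B * (U 1)ᴴ) * U 1 = B := by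
      have : (U 1)ᴴ * (U 1 * B * (U 1)ᴴ) * U 1 = ((U 1)ᴴ * U 1) * B * ((U 1)ᴴ * U 1) := by
        noncomm_ring
      rw [this, a1, one_mul, mul_one]
    have c2 : (U 2)ᴴ * (U 2 * C * (U 2)ᴴ) * U 2 = C := by
      have : (U 2)ᴴ * (U 2 * C * (U 2)ᴴ) * U 2 = ((U 2)ᴴ * U 2) * C * ((U 2)ᴴ * U 2) := by
        noncomm_ring
      rw [this, a2, one_mul, mul_one]
    rw [c1, c2, mul_neg, Matrix.trace_neg]
    congr 1
    calc ((U 0)ᴴ * A * U 0 * (B * C - C * B)).trace
        = ((U 0)ᴴ * (A * U 0 * (B * C - C * B))).trace := by simp only [Matrix.mul_assoc]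
      _ = ((A * U 0 * (B * C - C * B)) * (U 0)ᴴ).trace := Matrix.trace_mul_comm _ _
      _ = (A * (U 0 * (B * C - C * B) * (U 0)ᴴ)).trace := by simp only [Matrix.mul_assoc]
  refine no_triple (fun A => U 1 * A * (U 1)ᴴ) (fun A => U 2 * A * (U 2)ᴴ)
    (fun A => U 0 * A * (U 0)ᴴ) ?_ ?_ ?_ ?_ ?_ key2
  · intro A B
    have : U 1 * A * (U 1)ᴴ * (U 1 * B * (U 1)ᴴ) = U 1 * A * ((U 1)ᴴ * U 1) * B * (U 1)ᴴ := by
      noncomm_ring
    simp only [this, a1]
    noncomm_ring
  · intro A B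
    have : U 2 * A * (U 2)ᴴ * (U 2 * B * (U 2)ᴴ) = U 2 * A * ((U 2)ᴴ * U 2) * B * (U 2)ᴴ := by
      noncomm_ring
    simp only [this, a2]
    noncomm_ring
  · intro A B
    have : U 0 * A * (U 0)ᴴ * (U 0 * B * (U 0)ᴴ) = U 0 * A * ((U 0)ᴴ * U 0) * B * (U 0)ᴴ := by
      noncomm_ring
    simp only [this, a0]
    noncomm_ring
  · simp [b0]
  · intro A B
    noncomm_ring

/-- **Main theorem.** For three qubits there is a mirrored pair of optimal entanglement witnesses
that are not related by local unitaries. -/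
theorem result : ∃ W M : Op (fun _ : Fin 3 => 2),
    IsOptimalEW W ∧ IsOptimalEW M ∧ IsMirroredPair W M ∧ ¬ LocalUnitaryRelated W M := by
  have hW : IsOptimalEW (1 - chirality) := isOptimalEW pauli_xyz
  have hM : IsOptimalEW (1 + chirality) := by
    have := isOptimalEW pauli_xzy
    rwa [chi_xzy, sub_neg_eq_add] at this
  refine ⟨1 - chirality, 1 + chirality, hW, hM, ⟨hW.1, hM.1, 2, ?_⟩, not_related⟩
  rw [sub_add_add_cancel]
  push_cast
  rw [two_smul]

end Pool.Agent.Results.MP_472e54_mp.ChiralPair
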